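import Mathlib

/-! Counting lemmas for the runs of equal heights (odd integers, windows of length `2 ^ (a + 2)`). -/

set_option autoImplicit false

namespace Pool.Agent.L0h63.CR

open Finset

open Classical in
/-- the odd `m ≤ N` with the property `P` -/
noncomputable def os (P : ℕ → Prop) (N : ℕ) : Finset ℕ := {m ∈ range (N + 1) | Odd m ∧ P m}

/-- the number of the odd `m ≤ N` with the property `P` -/
noncomputable def oc (P : ℕ → Prop) (N : ℕ) : ℕ := #(os P N)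

theorem mem_os {P : ℕ → Prop} {N m : ℕ} : m ∈ os P N ↔ m ≤ N ∧ Odd m ∧ P m := by
  classical
  unfold os
  rw [mem_filter, mem_range, Nat.lt_succ_iff]

theorem oc_eq (P : ℕ → Prop) (N : ℕ) : {m : ℕ | m ≤ N ∧ Odd m ∧ P m}.ncard = oc P N := by
  unfold oc
  rw [← Set.ncard_coe_finset]
  congr 1
  ext m
  rw [mem_coe, mem_os]
  rfl

theorem oc_mono {P Q : ℕ → Prop} {N : ℕ} (h : ∀ m ≤ N, Odd m → P m → Q m) : oc P N ≤ oc Q N := by
  apply card_le_card
  intro m hm
  rw [mem_os] at hm ⊢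
  exact ⟨hm.1, hm.2.1, h m hm.1 hm.2.1 hm.2.2⟩

theorem oc_or (P Q : ℕ → Prop) (N : ℕ) : oc (fun m => P m ∨ Q m) N ≤ oc P N + oc Q N := by
  classical
  refine le_trans (card_le_card ?_) (card_union_le _ _)
  intro m hm
  rw [mem_os] at hm
  rw [mem_union, mem_os, mem_os]
  rcases hm.2.2 with h | h
  · exact Or.inl ⟨hm.1, hm.2.1, h⟩
  · exact Or.inr ⟨hm.1, hm.2.1, h⟩

theorem oc_sub {P Q : ℕ → Prop} {N : ℕ} (h : ∀ m ≤ N, Odd m → Q m → P m) :
    oc (fun m => P m ∧ ¬ Q m) N + oc Q N = oc P N := by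
  classical
  unfold oc
  rw [← card_union_of_disjoint]
  · congr 1
    ext m
    rw [mem_union, mem_os, mem_os, mem_os]
    constructor
    · rintro (⟨h1, h2, h3, _⟩ | ⟨h1, h2, h3⟩)
      · exact ⟨h1, h2, h3⟩
      · exact ⟨h1, h2, h m h1 h2 h3⟩
    · rintro ⟨h1, h2, h3⟩
      by_cases hQ : Q m
      · exact Or.inr ⟨h1, h2, hQ⟩
      · exact Or.inl ⟨h1, h2, h3, hQ⟩
  · rw [disjoint_left]
    intro m h1 h2
    rw [mem_os] at h1 h2
    exact h1.2.2.2 h2.2.2

theorem oc_le (P : ℕ → Prop) (N : ℕ) : oc P N ≤ N + 1 := by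
  classical
  unfold oc os
  exact (card_filter_le _ _).trans (by rw [card_range])

theorem oc_le_of {P : ℕ → Prop} {N M : ℕ} (h : ∀ m ≤ N, Odd m → P m → m ≤ M) : oc P N ≤ M + 1 := by
  have h1 : os P N ⊆ range (M + 1) := by
    intro m hm
    rw [mem_os] at hm
    rw [mem_range]
    have := h m hm.1 hm.2.1 hm.2.2
    omega
  exact (card_le_card h1).trans (by rw [card_range])

open Classical in
/-- every block of `2 ^ (a + 1)` integers contains `2 ^ a` odd ones -/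
theorem block_count (a N : ℕ) (E : ℕ → Prop) :
    oc (fun n => E (n / 2 ^ (a + 1))) N ≤ 2 ^ a * #{i ∈ range (N / 2 ^ (a + 1) + 1) | E i} := by
  unfold oc
  set s := os (fun n => E (n / 2 ^ (a + 1))) N with hs
  have h1 : #s ≤ 2 ^ a * #(s.image fun n => n / 2 ^ (a + 1)) := by
    apply card_le_mul_card_image
    intro q _
    have h2 : #{n ∈ s | n / 2 ^ (a + 1) = q} ≤ #(range (2 ^ a)) := by
      apply card_le_card_of_injOn (fun n => (n % 2 ^ (a + 1)) / 2)
      · intro n _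
        have h3 : n % 2 ^ (a + 1) < 2 ^ (a + 1) := Nat.mod_lt _ (by positivity)
        have h4 : (2 : ℕ) ^ (a + 1) = 2 * 2 ^ a := by ring
        simp only [coe_range, Set.mem_Iio]
        omega
      · intro n hn m hm hnm
        simp only [coe_filter, Set.mem_ofPred_eq] at hn hm hnm
        have hn1 : Odd n := (mem_os.1 hn.1).2.1
        have hm1 : Odd m := (mem_os.1 hm.1).2.1
        have h4 : (2 : ℕ) ^ (a + 1) = 2 * 2 ^ a := by ring
        have e1 := Nat.div_add_mod n (2 ^ (a + 1))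
        have e2 := Nat.div_add_mod m (2 ^ (a + 1))
        rw [hn.2] at e1
        rw [hm.2] at e2
        rw [Nat.odd_iff] at hn1 hm1
        have e3 : 2 ^ (a + 1) * q = 2 * (2 ^ a * q) := by rw [h4]; ring
        omega
    rwa [card_range] at h2
  refine h1.trans (Nat.mul_le_mul_left _ (card_le_card ?_))
  intro q hq
  rw [mem_image] at hq
  obtain ⟨n, hn, rfl⟩ := hq
  rw [hs, mem_os] at hn
  rw [mem_filter, mem_range]
  refine ⟨?_, hn.2.2⟩
  have : n / 2 ^ (a + 1) ≤ N / 2 ^ (a + 1) := Nat.div_le_div_right hn.1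
  omega

open Classical in
/-- three consecutive odd integers of each block of six -/
theorem triple_count (r I : ℕ) (hr : Odd r) (E : ℕ → Prop) :
    3 * #{i ∈ range (I + 1) | E (6 * i + r) ∧ E (6 * i + r + 2) ∧ E (6 * i + r + 4)} ≤
      oc E (6 * I + r + 4) := by
  unfold oc
  set s := {i ∈ range (I + 1) | E (6 * i + r) ∧ E (6 * i + r + 2) ∧ E (6 * i + r + 4)} with hs
  have h1 : #(s ×ˢ range 3) ≤ #(os E (6 * I + r + 4)) := by
    apply card_le_card_of_injOn (fun p => 6 * p.1 + r + 2 * p.2)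
    · rintro ⟨i, t⟩ hp
      simp only [coe_product, Set.mem_prod, hs, coe_filter, Set.mem_ofPred_eq, coe_range,
        Set.mem_Iio, mem_range] at hp
      obtain ⟨⟨hi, h2, h3, h4⟩, ht⟩ := hp
      rw [mem_coe, mem_os]
      dsimp only
      rw [Nat.odd_iff] at hr ⊢
      refine ⟨by omega, by omega, ?_⟩
      interval_cases t
      · simpa using h2
      · simpa using h3
      · simpa using h4
    · rintro ⟨i, t⟩ hp ⟨j, w⟩ hq h
      simp only [coe_product, Set.mem_prod, coe_range, Set.mem_Iio] at hp hq h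
      have : i = j ∧ t = w := by omega
      rw [this.1, this.2]
  rw [card_product, card_range] at h1
  omega

open Classical in
/-- the count in a class modulo six, when the property mostly does not change under shifts by `2` and `4` -/
theorem class_count (r I : ℕ) (hr : Odd r) (E Q : ℕ → Prop)
    (hQ : ∀ k, Odd k → Q k → E k → E (k + 2) ∧ E (k + 4)) :
    3 * #{i ∈ range (I + 1) | E (6 * i + r)} ≤
      oc E (6 * I + r + 4) + 3 * oc (fun k => ¬ Q k) (6 * I + r + 4) := by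
  have h1 := triple_count r I hr E
  have hodd : ∀ i, Odd (6 * i + r) := by
    intro i
    rw [Nat.odd_iff] at hr ⊢
    omega
  have h2 : #{i ∈ range (I + 1) | E (6 * i + r)} ≤
      #{i ∈ range (I + 1) | E (6 * i + r) ∧ E (6 * i + r + 2) ∧ E (6 * i + r + 4)} +
        #{i ∈ range (I + 1) | ¬ Q (6 * i + r)} := by
    refine le_trans (card_le_card ?_) (card_union_le _ _)
    intro i hi
    rw [mem_filter] at hi
    rw [mem_union, mem_filter, mem_filter]
    by_cases h : Q (6 * i + r)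
    · exact Or.inl ⟨hi.1, hi.2, hQ _ (hodd i) h hi.2⟩
    · exact Or.inr ⟨hi.1, h⟩
  have h3 : #{i ∈ range (I + 1) | ¬ Q (6 * i + r)} ≤ oc (fun k => ¬ Q k) (6 * I + r + 4) := by
    unfold oc
    apply card_le_card_of_injOn (fun i => 6 * i + r)
    · intro i hi
      rw [mem_coe, mem_filter, mem_range] at hi
      rw [mem_coe, mem_os]
      exact ⟨by dsimp only; omega, hodd i, hi.2⟩
    · intro i _ j _ h
      simp only at h
      omega
  omega

/-- the residues `1`, `5` -/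
theorem exists_r (a : ℕ) : ∃ r : ℕ, (r = 1 ∨ r = 5) ∧ 2 ^ a * r % 3 = 1 := by
  rcases Nat.even_or_odd a with h | h
  · obtain ⟨b, rfl⟩ := h
    refine ⟨1, Or.inl rfl, ?_⟩
    rw [← two_mul, pow_mul, mul_one, Nat.pow_mod]
    norm_num
  · obtain ⟨b, rfl⟩ := h
    refine ⟨5, Or.inr rfl, ?_⟩
    rw [pow_succ, pow_mul, mul_assoc, Nat.mul_mod, Nat.pow_mod]
    norm_num

/-- the preimage of `6 i + r` -/
theorem exists_pre {a r : ℕ} (ha : 2 ^ a * r % 3 = 1) (i : ℕ) :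
    ∃ m : ℕ, 3 * m + 1 = 2 ^ a * (6 * i + r) := by
  have h1 : 2 ^ a * (6 * i + r) % 3 = 1 := by
    rw [mul_add, show 2 ^ a * (6 * i) = 3 * (2 ^ a * 2 * i) by ring, Nat.mul_add_mod, ha]
  refine ⟨2 ^ a * (6 * i + r) / 3, ?_⟩
  omega

theorem pre_right {a r n m : ℕ} (hr : r = 1 ∨ r = 5)
    (hm : 3 * m + 1 = 2 ^ a * (6 * (n / 2 ^ (a + 1) + 1) + r)) :
    n ≤ m ∧ m ≤ n + 2 ^ (a + 2) := by
  set q := n / 2 ^ (a + 1) with hq
  have e1 := Nat.div_add_mod n (2 ^ (a + 1))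
  have e2 : n % 2 ^ (a + 1) < 2 ^ (a + 1) := Nat.mod_lt _ (by positivity)
  rw [← hq] at e1
  have h4 : (2 : ℕ) ^ (a + 1) = 2 * 2 ^ a := by ring
  have h5 : (2 : ℕ) ^ (a + 2) = 4 * 2 ^ a := by ring
  have h6 : 1 ≤ 2 ^ a := Nat.one_le_two_pow
  rw [h4] at e1 e2
  rw [h5]
  have e3 : 2 * 2 ^ a * q = 2 * (2 ^ a * q) := by ring
  rw [e3] at e1
  have e4 : 2 ^ a * (6 * (q + 1) + r) = 6 * (2 ^ a * q) + 6 * 2 ^ a + 2 ^ a * r := by ring
  rw [e4] at hm
  rcases hr with rfl | rfl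
  · omega
  · omega

theorem pre_left {a r n m : ℕ} (hr : r = 1 ∨ r = 5) (hq1 : 1 ≤ n / 2 ^ (a + 1))
    (hm : 3 * m + 1 = 2 ^ a * (6 * (n / 2 ^ (a + 1) - 1) + r)) :
    m ≤ n ∧ n ≤ m + 2 ^ (a + 2) := by
  obtain ⟨p, hp⟩ : ∃ p, n / 2 ^ (a + 1) = p + 1 := ⟨n / 2 ^ (a + 1) - 1, by omega⟩
  rw [hp] at hm
  have e1 := Nat.div_add_mod n (2 ^ (a + 1))
  have e2 : n % 2 ^ (a + 1) < 2 ^ (a + 1) := Nat.mod_lt _ (by positivity)
  rw [hp] at e1
  have h4 : (2 : ℕ) ^ (a + 1) = 2 * 2 ^ a := by ring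
  have h5 : (2 : ℕ) ^ (a + 2) = 4 * 2 ^ a := by ring
  have h6 : 1 ≤ 2 ^ a := Nat.one_le_two_pow
  rw [h4] at e1 e2
  rw [h5]
  have e3 : 2 * 2 ^ a * (p + 1) = 2 * (2 ^ a * p) + 2 * 2 ^ a := by ring
  rw [e3] at e1
  have e4 : 2 ^ a * (6 * (p + 1 - 1) + r) = 6 * (2 ^ a * p) + 2 ^ a * r := by
    rw [Nat.add_sub_cancel]; ring
  rw [e4] at hm
  rcases hr with rfl | rfl
  · omega
  · omega

end Pool.Agent.L0h63.CR
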