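import Pool.Agent.L0h63.CR.RL1
import Pool.Agent.Results.MP_2b866c_nt.HeightLaw

/-! Heights of the preimages of odd integers under the `3x+1` map, and the count of integers near them. -/

set_option autoImplicit false

namespace Pool.Agent.L0h63.CR

open Finset Pool.Agent.H499R2.ND
open Pool.Agent.Results.MP_2b866c_nt.HeightLaw (C height height_eq height_top height_iff)

theorem C_pre {a j m : ℕ} (hj : Odd j) (h : 3 * m + 1 = 2 ^ a * j) : C m = j := by
  unfold C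
  have h2 : ¬ 2 ∣ j := by
    rw [Nat.odd_iff] at hj
    omega
  have h0 : j ≠ 0 := by
    rintro rfl
    exact h2 (dvd_zero 2)
  have hp : padicValNat 2 (2 ^ a * j) = a := by
    rw [padicValNat.mul (by positivity) h0, padicValNat.prime_pow, padicValNat.eq_zero_of_not_dvd h2, add_zero]
  rw [h, hp, Nat.mul_div_cancel_left _ (by positivity)]

theorem isHt_succ {m h : ℕ} (hC : C m ≠ 1) (hh : IsHt (C m) h) : IsHt m (h + 1) := by
  obtain ⟨h1, h2, h3⟩ := hh
  refine ⟨by omega, ?_, fun k hk hlt hk1 => ?_⟩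
  · rw [Function.iterate_succ_apply]
    exact h2
  · obtain ⟨l, rfl⟩ : ∃ l, k = l + 1 := ⟨k - 1, by omega⟩
    rw [Function.iterate_succ_apply] at hk1
    rcases Nat.eq_zero_or_pos l with rfl | hl
    · exact hC hk1
    · exact h3 l hl (by omega) hk1

theorem isHt_pred {m h : ℕ} (hC : C m ≠ 1) (hh : IsHt m h) : ∃ k, h = k + 1 ∧ IsHt (C m) k := by
  obtain ⟨h1, h2, h3⟩ := hh
  obtain ⟨k, rfl⟩ : ∃ k, h = k + 1 := ⟨h - 1, by omega⟩
  rw [Function.iterate_succ_apply] at h2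
  rcases Nat.eq_zero_or_pos k with rfl | hk
  · exact absurd h2 hC
  · refine ⟨k, rfl, hk, h2, fun l hl hlt hl1 => ?_⟩
    refine h3 (l + 1) (by omega) (by omega) ?_
    rw [Function.iterate_succ_apply]
    exact hl1

/-- the height of the preimage of `j` is one more than the height of `j` -/
theorem height_pre {a j m : ℕ} (hj : Odd j) (hj1 : j ≠ 1) (h : 3 * m + 1 = 2 ^ a * j) :
    height m = height j + 1 := by
  have hC := C_pre hj h
  by_cases hex : ∃ k, IsHt j k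
  · obtain ⟨k, hk⟩ := hex
    rw [← hC] at hk
    rw [height_eq (isHt_succ (by rw [hC]; exact hj1) hk), ← hC, height_eq hk]
    norm_cast
  · rw [height_top hex, height_top, top_add]
    rintro ⟨k, hk⟩
    obtain ⟨l, -, hl⟩ := isHt_pred (by rw [hC]; exact hj1) hk
    rw [hC] at hl
    exact hex ⟨l, hl⟩

/-- the preimages are odd -/
theorem odd_pre {a j m : ℕ} (ha : 1 ≤ a) (h : 3 * m + 1 = 2 ^ a * j) : Odd m := by
  obtain ⟨b, rfl⟩ : ∃ b, a = b + 1 := ⟨a - 1, by omega⟩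
  rw [pow_succ, mul_comm (2 ^ b) 2, mul_assoc] at h
  rw [Nat.odd_iff]
  omega

/-- the count, for one side -/
theorem count_side {a r N : ℕ} (hr : Odd r) (f : ℕ → ℕ) (B Low E Q : ℕ → Prop)
    (hf : ∀ i, 1 ≤ i → f i ≤ i + 1) (hinj : ∀ i j, 1 ≤ i → 1 ≤ j → f i = f j → i = j)
    (hB : ∀ n ≤ N, Odd n → B n → Low n ∨ n < 2 ^ (a + 1) ∨ E (6 * f (n / 2 ^ (a + 1)) + r))
    (hQ : ∀ k, Odd k → Q k → E k → E (k + 2) ∧ E (k + 4)) :
    3 * oc B N ≤ 3 * oc Low N + 3 * 2 ^ (a + 1) + 2 ^ a * (oc E (6 * (N / 2 ^ (a + 1) + 1) + r + 4) +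
      3 * oc (fun k => ¬ Q k) (6 * (N / 2 ^ (a + 1) + 1) + r + 4)) := by
  classical
  set M := N / 2 ^ (a + 1) with hM
  have h1 : oc B N ≤ oc Low N + (oc (fun n => n < 2 ^ (a + 1)) N +
      oc (fun n => 1 ≤ n / 2 ^ (a + 1) ∧ E (6 * f (n / 2 ^ (a + 1)) + r)) N) := by
    refine le_trans (oc_mono (Q := fun n => Low n ∨ (n < 2 ^ (a + 1) ∨
      (1 ≤ n / 2 ^ (a + 1) ∧ E (6 * f (n / 2 ^ (a + 1)) + r)))) ?_)
      ((oc_or _ _ N).trans (Nat.add_le_add_left (oc_or _ _ N) _))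
    intro n hn hodd hBn
    rcases hB n hn hodd hBn with h | h | h
    · exact Or.inl h
    · exact Or.inr (Or.inl h)
    · by_cases h0 : n < 2 ^ (a + 1)
      · exact Or.inr (Or.inl h0)
      · refine Or.inr (Or.inr ⟨?_, h⟩)
        exact (Nat.one_le_div_iff (by positivity)).2 (not_lt.1 h0)
  have h2 : oc (fun n => n < 2 ^ (a + 1)) N ≤ 2 ^ (a + 1) := by
    have hpos : 1 ≤ 2 ^ (a + 1) := Nat.one_le_two_pow
    have := oc_le_of (P := fun n => n < 2 ^ (a + 1)) (N := N) (M := 2 ^ (a + 1) - 1) (fun m _ _ h => by omega)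
    omega
  have h3 := block_count a N (fun q => 1 ≤ q ∧ E (6 * f q + r))
  have h4 : #{i ∈ range (M + 1) | 1 ≤ i ∧ E (6 * f i + r)} ≤ #{i ∈ range (M + 1 + 1) | E (6 * i + r)} := by
    apply card_le_card_of_injOn f
    · intro i hi
      rw [mem_coe, mem_filter, mem_range] at hi ⊢
      exact ⟨by have := hf i hi.2.1; omega, hi.2.2⟩
    · intro i hi j hj h
      rw [mem_coe, mem_filter] at hi hj
      exact hinj i j hi.2.1 hj.2.1 h
  have h5 := class_count r (M + 1) hr E Q hQ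
  have h6 : 3 * (2 ^ a * #{i ∈ range (M + 1) | 1 ≤ i ∧ E (6 * f i + r)}) ≤
      2 ^ a * (oc E (6 * (M + 1) + r + 4) + 3 * oc (fun k => ¬ Q k) (6 * (M + 1) + r + 4)) := by
    calc 3 * (2 ^ a * #{i ∈ range (M + 1) | 1 ≤ i ∧ E (6 * f i + r)})
        = 2 ^ a * (3 * #{i ∈ range (M + 1) | 1 ≤ i ∧ E (6 * f i + r)}) := by ring
      _ ≤ _ := Nat.mul_le_mul_left _ ((Nat.mul_le_mul_left 3 h4).trans h5)
  have h3' : oc (fun n => 1 ≤ n / 2 ^ (a + 1) ∧ E (6 * f (n / 2 ^ (a + 1)) + r)) N ≤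
      2 ^ a * #{i ∈ range (M + 1) | 1 ≤ i ∧ E (6 * f i + r)} := by convert h3
  omega

end Pool.Agent.L0h63.CR
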