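import Pool.Agent.L0h63.CR.RL2
import Pool.Agent.Results.MP_2b866c_nt.HeightRuns

/-! The proportion of the odd integers whose height is almost minimal in a window. -/

set_option autoImplicit false

namespace Pool.Agent.L0h63.CR

open Filter Topology
open Pool.Agent.Results.MP_2b866c_nt.HeightLaw (height HasOddDensity bound Phi)

/-- the constant of the mean height -/
noncomputable def c₀ : ℝ := 2 / Real.log (16 / 9)

/-- the standard deviation of the height, as a function of `log m` -/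
noncomputable def s₀ (t : ℝ) : ℝ := Real.log 2 * Real.sqrt (2 * t / Real.log (4 / 3) ^ 3)

theorem c₀_pos : 0 < c₀ := div_pos (by norm_num) (Real.log_pos (by norm_num))

theorem s₀_mono : Monotone s₀ := by
  intro a b h
  have h1 : 0 < Real.log (4 / 3) ^ 3 := by
    have : 0 < Real.log (4 / 3) := Real.log_pos (by norm_num)
    positivity
  unfold s₀
  refine mul_le_mul_of_nonneg_left (Real.sqrt_le_sqrt ?_) (Real.log_nonneg (by norm_num))
  rw [div_le_div_iff_of_pos_right h1]
  linarith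

theorem s₀_nonneg (t : ℝ) : 0 ≤ s₀ t := mul_nonneg (Real.log_nonneg (by norm_num)) (Real.sqrt_nonneg _)

theorem bound_eq' (x : ℝ) (m : ℕ) : bound x m = c₀ * Real.log m + x * s₀ (Real.log m) := rfl

/-- the heights not above `bound x` -/
def L (x : ℝ) (m : ℕ) : Prop := ∃ h : ℕ, height m = h ∧ (h : ℝ) ≤ bound x m

/-- the heights of `k`, `k + 2`, `k + 4` are equal -/
def Q (k : ℕ) : Prop := height (k + 2) = height k ∧ height (k + 4) = height k

theorem dens_oc {P : ℕ → Prop} {δ : ℝ} (h : HasOddDensity P δ) :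
    Tendsto (fun N : ℕ => 2 / (N : ℝ) * (oc P N : ℝ)) atTop (𝓝 δ) := by
  unfold Pool.Agent.Results.MP_2b866c_nt.HeightLaw.HasOddDensity at h
  simpa only [oc_eq] using h

theorem of_dens_oc {P : ℕ → Prop} {δ : ℝ} (h : Tendsto (fun N : ℕ => 2 / (N : ℝ) * (oc P N : ℝ)) atTop (𝓝 δ)) :
    HasOddDensity P δ := by
  unfold Pool.Agent.Results.MP_2b866c_nt.HeightLaw.HasOddDensity
  simpa only [oc_eq] using h

theorem law : ∃ δ : ℝ, 0 < δ ∧ δ ≤ 1 ∧ HasOddDensity (fun m => height m ≠ ⊤) δ ∧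
    ∀ x, HasOddDensity (L x) (δ * Phi x) := by
  obtain ⟨δ, h0, h1, -, h3, h4⟩ := Pool.Agent.Results.MP_2b866c_nt.HeightLaw.result
  refine ⟨δ, h0, h1, h3, fun x => ?_⟩
  have := (h4 1 0 le_rfl).2 x
  simp only [Nat.cast_one, div_one, Int.modEq_one, and_true] at this
  exact this

theorem odd_one : HasOddDensity (fun _ => True) 1 := by
  apply Pool.Agent.Results.MP_2b866c_nt.HeightLaw.odd_density_of
  exact Pool.Agent.H499R2.LT.Dn_iff (fun n _ => ⟨fun h => ⟨h, trivial⟩, fun h => h.1⟩) Pool.Agent.H499R2.ND.odd_density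

theorem compl_dens {P : ℕ → Prop} {δ : ℝ} (h : HasOddDensity P δ) : HasOddDensity (fun m => ¬ P m) (1 - δ) := by
  apply of_dens_oc
  refine ((dens_oc odd_one).sub (dens_oc h)).congr fun N => ?_
  have h1 := oc_sub (P := fun _ => True) (Q := P) (N := N) (fun _ _ _ _ => trivial)
  have h2 : oc (fun m => True ∧ ¬ P m) N = oc (fun m => ¬ P m) N :=
    le_antisymm (oc_mono fun _ _ _ h => h.2) (oc_mono fun _ _ _ h => ⟨trivial, h⟩)
  rw [h2] at h1
  have h3 : (oc (fun _ => True) N : ℝ) = oc (fun m => ¬ P m) N + oc P N := by exact_mod_cast h1.symm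
  rw [h3]
  ring

theorem dens_Q : HasOddDensity (fun k => ¬ Q k) 0 := by
  have h := Pool.Agent.Results.MP_2b866c_nt.HeightRuns.result (fun _ => 2) (by
    have h1 : Tendsto (fun t : ℝ => Real.log t / t ^ (1 / 2 : ℝ)) atTop (𝓝 0) :=
      (isLittleO_log_rpow_atTop (by norm_num : (0 : ℝ) < 1 / 2)).tendsto_div_nhds_zero
    have h2 : Tendsto (fun n : ℕ => Real.log n) atTop atTop := Real.tendsto_log_atTop.comp tendsto_natCast_atTop_atTop
    have h3 := (h1.comp h2).const_mul 2
    rw [mul_zero] at h3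
    refine h3.congr fun n => ?_
    simp only [Function.comp_apply, ← Real.sqrt_eq_rpow]
    push_cast
    ring)
  have h1 : HasOddDensity (fun m => ∀ j ≤ 2, height (m + 2 * j) = height m) 1 := h
  have h2 := compl_dens h1
  rw [sub_self] at h2
  have h3 : Tendsto (fun N : ℕ => 2 / (N : ℝ) * (oc (fun k => ¬ Q k) N : ℝ)) atTop (𝓝 0) := by
    refine squeeze_zero (fun N => by positivity) (fun N => ?_) (dens_oc h2)
    refine mul_le_mul_of_nonneg_left ?_ (by positivity)
    have : oc (fun k => ¬ Q k) N ≤ oc (fun m => ¬ ∀ j ≤ 2, height (m + 2 * j) = height m) N := by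
      refine oc_mono fun m _ _ hm hcon => hm ⟨?_, ?_⟩
      · have := hcon 1 (by norm_num)
        rwa [mul_one] at this
      · exact hcon 2 le_rfl
    exact_mod_cast this
  exact of_dens_oc h3

/-- the assumptions on the windows `[n, n + exp (G N)]`, `n ≤ N`, and on the difference `D N` of the heights -/
structure Win (G D : ℕ → ℝ) (x : ℝ) : Prop where
  x0 : 0 ≤ x
  D0 : ∀ N, 0 ≤ D N
  gap : Tendsto (fun N : ℕ => c₀ * G N - D N - 2 * x * s₀ (Real.log N)) atTop atTop
  small : Tendsto (fun N : ℕ => Real.log N - G N) atTop atTop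

namespace Win

variable {G D : ℕ → ℝ} {x : ℝ} (W : Win G D x)

include W

theorem tendsto_G : Tendsto G atTop atTop := by
  have h1 : Tendsto (fun N : ℕ => (c₀ * G N - D N - 2 * x * s₀ (Real.log N)) / c₀) atTop atTop :=
    W.gap.atTop_div_const c₀_pos
  refine tendsto_atTop_mono (fun N => ?_) h1
  rw [div_le_iff₀ c₀_pos]
  have h2 := W.D0 N
  have h3 : 0 ≤ 2 * x * s₀ (Real.log N) := by
    have := s₀_nonneg (Real.log N)
    have := W.x0
    positivity
  nlinarith

/-- the exponent -/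
theorem exists_a : ∃ a : ℕ → ℕ, ∀ᶠ N in atTop, 5 ≤ a N ∧ (2 : ℝ) ^ (a N + 2) ≤ Real.exp (G N) ∧
    G N - 3 * Real.log 2 ≤ a N * Real.log 2 := by
  have hl : 0 < Real.log 2 := Real.log_pos (by norm_num)
  refine ⟨fun N => ⌊G N / Real.log 2⌋₊ - 2, ?_⟩
  filter_upwards [W.tendsto_G.eventually_ge_atTop (7 * Real.log 2)] with N hN
  have h1 : 7 ≤ G N / Real.log 2 := by rwa [le_div_iff₀ hl]
  have h2 : 7 ≤ ⌊G N / Real.log 2⌋₊ := Nat.le_floor (by exact_mod_cast h1)
  obtain ⟨a, ha⟩ : ∃ a, ⌊G N / Real.log 2⌋₊ = a + 2 := ⟨⌊G N / Real.log 2⌋₊ - 2, by omega⟩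
  have h3 := Nat.floor_le (show 0 ≤ G N / Real.log 2 by linarith)
  have h4 := Nat.lt_floor_add_one (G N / Real.log 2)
  rw [ha] at h3 h4
  rw [le_div_iff₀ hl] at h3
  rw [div_lt_iff₀ hl] at h4
  push_cast at h3 h4
  have h5 : ⌊G N / Real.log 2⌋₊ - 2 = a := by omega
  rw [h5]
  refine ⟨by omega, ?_, by linarith⟩
  calc (2 : ℝ) ^ (a + 2) = Real.exp (Real.log 2 * ((a + 2 : ℕ) : ℝ)) := by
        rw [← Real.rpow_def_of_pos (by norm_num), Real.rpow_natCast]
    _ ≤ Real.exp (G N) := by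
        rw [Real.exp_le_exp]
        push_cast
        linarith

end Win

end Pool.Agent.L0h63.CR
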