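import Pool.Agent.L0h63.CR.RL3

/-! The proportion of the odd integers whose height is almost minimal in a window: the main estimate. -/

set_option autoImplicit false

namespace Pool.Agent.L0h63.CR

open Filter Topology
open Pool.Agent.Results.MP_2b866c_nt.HeightLaw (height HasOddDensity bound Phi)

/-- the upper end for the indices -/
def KK (a r N : ℕ) : ℕ := 6 * (N / 2 ^ (a + 1) + 1) + r + 4

theorem KK_upper {a r N : ℕ} (hr : r ≤ 5) : 2 ^ a * KK a r N ≤ 3 * N + 15 * 2 ^ a := by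
  unfold KK
  have h1 := Nat.div_mul_le_self N (2 ^ (a + 1))
  have h2 : (2 : ℕ) ^ (a + 1) = 2 * 2 ^ a := by ring
  rw [h2] at h1
  rw [h2]
  have h3 : 2 ^ a * (6 * (N / (2 * 2 ^ a) + 1) + r + 4) =
      3 * (N / (2 * 2 ^ a) * (2 * 2 ^ a)) + 10 * 2 ^ a + 2 ^ a * r := by ring
  have h4 : 2 ^ a * r ≤ 2 ^ a * 5 := Nat.mul_le_mul_left _ hr
  omega

theorem KK_lower (a r N : ℕ) : 3 * N ≤ 2 ^ a * KK a r N := by
  unfold KK
  have h1 := Nat.lt_div_mul_add (a := N) (b := 2 ^ (a + 1)) (by positivity)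
  have h2 : (2 : ℕ) ^ (a + 1) = 2 * 2 ^ a := by ring
  rw [h2] at h1
  rw [h2]
  have h3 : 2 ^ a * (6 * (N / (2 * 2 ^ a) + 1) + r + 4) =
      3 * (N / (2 * 2 ^ a) * (2 * 2 ^ a)) + 3 * (2 * 2 ^ a) + 2 ^ a * (r + 4) := by ring
  omega

/-- the estimate for one `N` -/
theorem one_N {a r N : ℕ} {x η g d : ℝ} (hN : 1 ≤ N) (hr : r = 1 ∨ r = 5) (f : ℕ → ℕ) (B : ℕ → Prop)
    (hf : ∀ i, 1 ≤ i → f i ≤ i + 1) (hinj : ∀ i j, 1 ≤ i → 1 ≤ j → f i = f j → i = j)
    (hB : ∀ n ≤ N, Odd n → B n → n < 2 ^ (a + 1) ∨ ∃ h h' : ℕ, height n = h ∧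
      height (6 * f (n / 2 ^ (a + 1)) + r) = h' ∧ (h : ℝ) ≤ h' + 1 + d)
    (ha5 : 5 ≤ a) (haN : 2 ^ a ≤ N) (hg : g - 3 * Real.log 2 ≤ a * Real.log 2) (hx : 0 ≤ x) (hη : 0 < η)
    (hgap : c₀ * (Real.log 18 + 3 * Real.log 2) + 1 - c₀ * Real.log η ≤ c₀ * g - d - 2 * x * s₀ (Real.log N)) :
    2 / (N : ℝ) * (oc B N : ℝ) ≤ 2 * η + 2 / (N : ℝ) + 2 / (N : ℝ) * (oc (L (-x)) N : ℝ) + 4 * ((2 : ℝ) ^ a / N) +
      (1 + 5 * ((2 : ℝ) ^ a / N)) * ((2 / (KK a r N : ℝ) * (oc (fun m => height m ≠ ⊤) (KK a r N) : ℝ) -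
        2 / (KK a r N : ℝ) * (oc (L x) (KK a r N) : ℝ)) +
        3 * (2 / (KK a r N : ℝ) * (oc (fun k => ¬ Q k) (KK a r N) : ℝ))) := by
  set K := KK a r N with hK
  set τ : ℝ := c₀ * Real.log N + c₀ * Real.log η - x * s₀ (Real.log N) with hτ
  set E : ℕ → Prop := fun k => height k ≠ ⊤ ∧ ¬ ∃ h' : ℕ, height k = h' ∧ (h' : ℝ) ≤ τ - 1 - d with hE
  set Low : ℕ → Prop := fun n => ∃ h : ℕ, height n = h ∧ (h : ℝ) ≤ τ with hLow
  have hr5 : r ≤ 5 := by omega
  have hrodd : Odd r := by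
    rcases hr with rfl | rfl <;> decide
  have hNr : (0 : ℝ) < N := by exact_mod_cast hN
  have hc := c₀_pos
  have h1 := count_side (a := a) (r := r) (N := N) hrodd f B Low E Q hf hinj ?_ ?_
  rotate_left
  · intro n hn hodd hBn
    rcases hB n hn hodd hBn with h | ⟨h, h', e1, e2, e3⟩
    · exact Or.inr (Or.inl h)
    · by_cases h2 : (h : ℝ) ≤ τ
      · exact Or.inl ⟨h, e1, h2⟩
      · refine Or.inr (Or.inr ⟨?_, ?_⟩)
        · rw [e2]
          exact ENat.natCast_ne_top h'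
        · rintro ⟨l, e4, e5⟩
          rw [e2] at e4
          have : h' = l := by exact_mod_cast e4
          rw [← this] at e5
          linarith
  · intro k hk hQ hEk
    simp only [hE]
    rw [hQ.1, hQ.2]
    exact ⟨hEk, hEk⟩
  change 3 * oc B N ≤ 3 * oc Low N + 3 * 2 ^ (a + 1) + 2 ^ a * (oc E K + 3 * oc (fun k => ¬ Q k) K) at h1
  -- the low heights
  have h2 : (oc Low N : ℝ) ≤ η * N + 1 + oc (L (-x)) N := by
    have h3 : oc Low N ≤ oc (fun n => n ≤ ⌊η * N⌋₊) N + oc (L (-x)) N := by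
      refine le_trans (oc_mono ?_) (oc_or _ _ N)
      rintro n hn hodd ⟨h, e1, e2⟩
      by_cases h4 : n ≤ ⌊η * N⌋₊
      · exact Or.inl h4
      · refine Or.inr ⟨h, e1, e2.trans ?_⟩
        have h5 : η * N < n := (Nat.floor_lt (by positivity)).1 (not_le.1 h4)
        have h6 : Real.log η + Real.log N ≤ Real.log n := by
          rw [← Real.log_mul hη.ne' hNr.ne']
          exact Real.log_le_log (by positivity) h5.le
        have h7 : s₀ (Real.log n) ≤ s₀ (Real.log N) := by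
          apply s₀_mono
          exact Real.log_le_log (by exact_mod_cast hodd.pos) (by exact_mod_cast hn)
        rw [bound_eq', hτ]
        have h8 := mul_le_mul_of_nonneg_left h7 hx
        have h9 := mul_le_mul_of_nonneg_left h6 hc.le
        linarith
    have h4 : oc (fun n => n ≤ ⌊η * N⌋₊) N ≤ ⌊η * N⌋₊ + 1 := oc_le_of fun m _ _ h => h
    have h5 := Nat.floor_le (show 0 ≤ η * N by positivity)
    have h6 : (oc Low N : ℝ) ≤ oc (fun n => n ≤ ⌊η * N⌋₊) N + oc (L (-x)) N := by exact_mod_cast h3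
    have h7 : (oc (fun n => n ≤ ⌊η * N⌋₊) N : ℝ) ≤ ⌊η * N⌋₊ + 1 := by exact_mod_cast h4
    linarith
  -- the high heights
  have hKu : 2 ^ a * K ≤ 3 * N + 15 * 2 ^ a := KK_upper hr5
  have hKl : 3 * N ≤ 2 ^ a * K := KK_lower a r N
  have h32 : 32 ≤ 2 ^ a := by
    calc 32 = 2 ^ 5 := by norm_num
      _ ≤ 2 ^ a := Nat.pow_le_pow_right (by norm_num) ha5
  have hK18 : 2 ^ a * K ≤ 18 * N := by omega
  have hKpos : 0 < K := by
    rcases Nat.eq_zero_or_pos K with h | h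
    · rw [h, mul_zero] at hKl
      omega
    · exact h
  have hKN : K ≤ N := by
    have h3 : 32 * K ≤ 2 ^ a * K := Nat.mul_le_mul_right K h32
    omega
  have hKr : (0 : ℝ) < K := by exact_mod_cast hKpos
  have hlogK : Real.log K ≤ Real.log 18 + Real.log N - a * Real.log 2 := by
    have h3 : (2 : ℝ) ^ a * K ≤ 18 * N := by exact_mod_cast hK18
    have h4 := Real.log_le_log (by positivity) h3
    rw [Real.log_mul (by positivity) hKr.ne', Real.log_mul (by norm_num) hNr.ne', Real.log_pow] at h4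
    linarith
  have h3 : oc E K + oc (L x) K ≤ oc (fun m => height m ≠ ⊤) K := by
    have h4 := oc_sub (P := fun m => height m ≠ ⊤) (Q := L x) (N := K) (by
      rintro m - - ⟨h, e1, -⟩
      simp only [e1]
      exact ENat.natCast_ne_top h)
    rw [← h4]
    refine Nat.add_le_add_right (oc_mono ?_) _
    rintro k hk hodd ⟨e1, e2⟩
    refine ⟨e1, ?_⟩
    rintro ⟨h, e3, e4⟩
    refine e2 ⟨h, e3, e4.trans ?_⟩
    have h5 : Real.log k ≤ Real.log K := Real.log_le_log (by exact_mod_cast hodd.pos) (by exact_mod_cast hk)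
    have h6 : s₀ (Real.log k) ≤ s₀ (Real.log N) := by
      apply s₀_mono
      exact Real.log_le_log (by exact_mod_cast hodd.pos) (by exact_mod_cast hk.trans hKN)
    have h7 := mul_le_mul_of_nonneg_left h6 hx
    have h8 := mul_le_mul_of_nonneg_left (h5.trans (hlogK.trans (show _ ≤ Real.log 18 + Real.log N -
      (g - 3 * Real.log 2) by linarith))) hc.le
    rw [bound_eq', hτ]
    linarith
  -- conclusion
  set t : ℝ := (2 : ℝ) ^ a / N with ht
  have ht0 : 0 ≤ t := by positivity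
  have htN : (2 : ℝ) ^ a = t * N := by rw [ht]; field_simp
  have h1r : 3 * (oc B N : ℝ) ≤ 3 * oc Low N + 3 * (2 * (t * N)) +
      (t * N) * (oc E K + 3 * oc (fun k => ¬ Q k) K) := by
    rw [← htN, ← pow_succ']
    exact_mod_cast h1
  have h3r : (oc E K : ℝ) ≤ oc (fun m => height m ≠ ⊤) K - oc (L x) K := by
    have : (oc E K : ℝ) + oc (L x) K ≤ oc (fun m => height m ≠ ⊤) K := by exact_mod_cast h3
    linarith
  have hKt : t * K ≤ 3 + 15 * t := by
    have h5 : (2 : ℝ) ^ a * K ≤ 3 * N + 15 * 2 ^ a := by exact_mod_cast hKu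
    rw [htN] at h5
    have h6 : N * (t * K) ≤ N * (3 + 15 * t) := by linarith
    exact le_of_mul_le_mul_left h6 hNr
  set Y : ℝ := (oc (fun m => height m ≠ ⊤) K - oc (L x) K) + 3 * oc (fun k => ¬ Q k) K with hY
  have hY0 : 0 ≤ Y := by
    have h5 : (0 : ℝ) ≤ oc E K := by positivity
    have h6 : (0 : ℝ) ≤ oc (fun k => ¬ Q k) K := by positivity
    linarith
  have h7 : (oc E K : ℝ) + 3 * oc (fun k => ¬ Q k) K ≤ Y := by linarith
  have h8 : 2 / (N : ℝ) * oc B N ≤ 2 / (N : ℝ) * (η * N + 1 + oc (L (-x)) N + 2 * (t * N) + t * N * Y / 3) := by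
    refine mul_le_mul_of_nonneg_left ?_ (by positivity)
    have h9 : t * N * (oc E K + 3 * oc (fun k => ¬ Q k) K) ≤ t * N * Y := mul_le_mul_of_nonneg_left h7 (by positivity)
    linarith
  refine h8.trans ?_
  have h10 : 2 / (N : ℝ) * (η * N + 1 + oc (L (-x)) N + 2 * (t * N) + t * N * Y / 3) =
      2 * η + 2 / (N : ℝ) + 2 / (N : ℝ) * oc (L (-x)) N + 4 * t + (t * K / 3) * (2 / K * Y) := by
    field_simp
    ring
  rw [h10]
  have h11 : 2 / (K : ℝ) * oc (fun m => height m ≠ ⊤) K - 2 / (K : ℝ) * oc (L x) K +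
      3 * (2 / (K : ℝ) * oc (fun k => ¬ Q k) K) = 2 / K * Y := by
    rw [hY]
    ring
  rw [h11]
  have h12 : t * K / 3 ≤ 1 + 5 * t := by linarith
  have h13 := mul_le_mul_of_nonneg_right h12 (show 0 ≤ 2 / (K : ℝ) * Y by positivity)
  linarith

end Pool.Agent.L0h63.CR
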