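import Pool.Agent.L0h63.CR.RL4

/-! The proportion of the odd integers whose height is almost minimal in a window: the limits. -/

set_option autoImplicit false

namespace Pool.Agent.L0h63.CR

open Filter Topology
open Pool.Agent.Results.MP_2b866c_nt.HeightLaw (C height height_eq height_top height_iff HasOddDensity bound Phi)

theorem main_side {δ x : ℝ} {G D : ℕ → ℝ} (W : Win G D x) (hF : HasOddDensity (fun m => height m ≠ ⊤) δ)
    (hL : ∀ x, HasOddDensity (L x) (δ * Phi x)) (f : ℕ → ℕ) (B : ℕ → ℕ → Prop)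
    (hf : ∀ i, 1 ≤ i → f i ≤ i + 1) (hinj : ∀ i j, 1 ≤ i → 1 ≤ j → f i = f j → i = j)
    (hB : ∀ N a r : ℕ, 5 ≤ a → (r = 1 ∨ r = 5) → 2 ^ a * r % 3 = 1 → (2 : ℝ) ^ (a + 2) ≤ Real.exp (G N) →
      ∀ n ≤ N, Odd n → B N n → n < 2 ^ (a + 1) ∨ ∃ h h' : ℕ, height n = h ∧
        height (6 * f (n / 2 ^ (a + 1)) + r) = h' ∧ (h : ℝ) ≤ h' + 1 + D N) {ε : ℝ} (hε : 0 < ε) :
    ∀ᶠ N : ℕ in atTop, 2 / (N : ℝ) * (oc (B N) N : ℝ) ≤ δ * Phi (-x) + δ * (1 - Phi x) + ε := by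
  obtain ⟨a, ha⟩ := W.exists_a
  choose r hr using fun N => exists_r (a N)
  set K : ℕ → ℕ := fun N => KK (a N) (r N) N with hK
  set t : ℕ → ℝ := fun N => (2 : ℝ) ^ a N / N with ht
  have hexp : Tendsto (fun N : ℕ => Real.exp (-(Real.log N - G N))) atTop (𝓝 0) :=
    Real.tendsto_exp_neg_atTop_nhds_zero.comp W.small
  have hpow : ∀ᶠ N in atTop, (2 : ℝ) ^ a N ≤ Real.exp (G N) := by
    filter_upwards [ha] with N hN
    refine le_trans ?_ hN.2.1
    exact pow_le_pow_right₀ (by norm_num) (by omega)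
  have hNpos : ∀ᶠ N : ℕ in atTop, 1 ≤ N := eventually_ge_atTop 1
  have htl : Tendsto t atTop (𝓝 0) := by
    refine squeeze_zero' (Eventually.of_forall fun N => by positivity) ?_ hexp
    filter_upwards [hpow, hNpos] with N h1 h2
    have h3 : (0 : ℝ) < N := by exact_mod_cast h2
    rw [neg_sub, Real.exp_sub, Real.exp_log h3]
    exact div_le_div_of_nonneg_right h1 h3.le
  have hKl : Tendsto K atTop atTop := by
    rw [← tendsto_natCast_atTop_iff (R := ℝ)]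
    refine tendsto_atTop_mono' _ ?_ (Real.tendsto_exp_atTop.comp W.small)
    filter_upwards [hpow, hNpos] with N h1 h2
    have h3 : (0 : ℝ) < N := by exact_mod_cast h2
    rw [Function.comp_apply, Real.exp_sub, Real.exp_log h3, div_le_iff₀ (Real.exp_pos _)]
    have h4 : (3 : ℝ) * N ≤ 2 ^ a N * K N := by exact_mod_cast KK_lower (a N) (r N) N
    have h5 : (2 : ℝ) ^ a N * K N ≤ Real.exp (G N) * K N := mul_le_mul_of_nonneg_right h1 (by positivity)
    linarith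
  have hN2 : Tendsto (fun N : ℕ => 2 / (N : ℝ)) atTop (𝓝 0) := tendsto_const_div_atTop_nhds_zero_nat 2
  have hU := ((((hN2.const_add (2 * (ε / 4))).add (dens_oc (hL (-x)))).add (htl.const_mul 4)).add
    (((htl.const_mul 5).const_add 1).mul ((((dens_oc hF).comp hKl).sub ((dens_oc (hL x)).comp hKl)).add
      (((dens_oc dens_Q).comp hKl).const_mul 3))))
  have hlim : (2 * (ε / 4) + 0 + δ * Phi (-x) + 4 * 0 + (1 + 5 * 0) * (δ - δ * Phi x + 3 * 0)) <
      δ * Phi (-x) + δ * (1 - Phi x) + ε := by linarith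
  have hev := hU.eventually_lt_const hlim
  have htone : ∀ᶠ N in atTop, t N ≤ 1 := (htl.eventually_lt_const (by norm_num : (0 : ℝ) < 1)).mono fun _ h => h.le
  filter_upwards [hev, ha, hNpos, htone, W.gap.eventually_ge_atTop
    (c₀ * (Real.log 18 + 3 * Real.log 2) + 1 - c₀ * Real.log (ε / 4))] with N h1 h2 h3 h4 h5
  refine le_trans ?_ h1.le
  have h3r : (0 : ℝ) < N := by exact_mod_cast h3
  have haN : 2 ^ a N ≤ N := by
    have : (2 : ℝ) ^ a N ≤ N := by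
      simp only [ht] at h4
      rwa [div_le_one h3r] at h4
    exact_mod_cast this
  exact one_N (a := a N) (r := r N) (N := N) (x := x) (η := ε / 4) (g := G N) (d := D N) h3 (hr N).1 f (B N)
    hf hinj (hB N (a N) (r N) h2.1 (hr N).1 (hr N).2 h2.2.1) h2.1 haN h2.2.2 W.x0 (by linarith) h5

theorem height_one : height 1 = (1 : ℕ) := by
  apply height_eq
  refine ⟨le_rfl, ?_, fun k hk hlt => by omega⟩
  exact C_pre (a := 2) (j := 1) odd_one_nat (by norm_num)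
where
  odd_one_nat : Odd 1 := ⟨0, by norm_num⟩

/-- the windows to the right -/
def BR (G D : ℕ → ℝ) (N n : ℕ) : Prop := ∃ h : ℕ, height n = h ∧ ∀ m : ℕ, Odd m → n ≤ m →
  (m : ℝ) ≤ n + Real.exp (G N) → ∃ h' : ℕ, height m = h' ∧ (h : ℝ) ≤ h' + D N

/-- the windows to the left -/
def BL (G D : ℕ → ℝ) (N n : ℕ) : Prop := ∃ h : ℕ, height n = h ∧ ∀ m : ℕ, Odd m → m ≤ n →
  (n : ℝ) ≤ m + Real.exp (G N) → ∃ h' : ℕ, height m = h' ∧ (h : ℝ) ≤ h' + D N

theorem Phi_neg (x : ℝ) : Phi (-x) = 1 - Phi x := by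
  unfold Pool.Agent.Results.MP_2b866c_nt.HeightLaw.Phi
  rw [← Pool.Agent.H499R2.ND.phi_cdf, ← Pool.Agent.H499R2.ND.phi_cdf]
  exact Pool.Agent.H499R2.ND.Phi_neg x

theorem main_right {δ x : ℝ} {G D : ℕ → ℝ} (W : Win G D x) (hF : HasOddDensity (fun m => height m ≠ ⊤) δ)
    (hL : ∀ x, HasOddDensity (L x) (δ * Phi x)) {ε : ℝ} (hε : 0 < ε) :
    ∀ᶠ N : ℕ in atTop, 2 / (N : ℝ) * (oc (BR G D N) N : ℝ) ≤ 2 * δ * Phi (-x) + ε := by
  have h := main_side W hF hL (fun i => i + 1) (BR G D) (fun i _ => le_rfl) (fun i j _ _ h => by simpa using h) ?_ hε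
  · refine h.mono fun N hN => hN.trans (le_of_eq ?_)
    rw [Phi_neg]
    ring
  intro N a r ha hr har hexp n hn hodd hBn
  right
  obtain ⟨h, e1, e2⟩ := hBn
  obtain ⟨m, hm⟩ := exists_pre har (n / 2 ^ (a + 1) + 1)
  obtain ⟨k1, k2⟩ := pre_right hr hm
  have hj : Odd (6 * (n / 2 ^ (a + 1) + 1) + r) := by
    rw [Nat.odd_iff]
    omega
  have k3 : (m : ℝ) ≤ n + Real.exp (G N) := by
    have : (m : ℝ) ≤ n + 2 ^ (a + 2) := by exact_mod_cast k2
    linarith
  have ha1 : 1 ≤ a := by omega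
  obtain ⟨h', e3, e4⟩ := e2 m (odd_pre ha1 hm) k1 k3
  have hj1 : 6 * (n / 2 ^ (a + 1) + 1) + r ≠ 1 := by
    have : 6 ≤ 6 * (n / 2 ^ (a + 1) + 1) + r := by nlinarith [Nat.zero_le (n / 2 ^ (a + 1))]
    intro hcon
    rw [hcon] at this
    norm_num at this
  have k4 := height_pre hj hj1 hm
  rw [e3] at k4
  have k5 : height (6 * (n / 2 ^ (a + 1) + 1) + r) ≠ ⊤ := by
    intro hcon
    rw [hcon, top_add] at k4
    exact ENat.natCast_ne_top h' k4
  obtain ⟨l, hl⟩ := ENat.ne_top_iff_exists.1 k5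
  rw [← hl] at k4
  have k6 : h' = l + 1 := by exact_mod_cast k4
  refine ⟨h, l, e1, hl.symm, ?_⟩
  rw [k6] at e4
  push_cast at e4
  linarith

theorem main_left {δ x : ℝ} {G D : ℕ → ℝ} (W : Win G D x) (hF : HasOddDensity (fun m => height m ≠ ⊤) δ)
    (hL : ∀ x, HasOddDensity (L x) (δ * Phi x)) {ε : ℝ} (hε : 0 < ε) :
    ∀ᶠ N : ℕ in atTop, 2 / (N : ℝ) * (oc (BL G D N) N : ℝ) ≤ 2 * δ * Phi (-x) + ε := by
  have h := main_side W hF hL (fun i => i - 1) (BL G D) (fun i _ => by omega) (fun i j _ _ h => by omega) ?_ hε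
  · refine h.mono fun N hN => hN.trans (le_of_eq ?_)
    rw [Phi_neg]
    ring
  intro N a r ha hr har hexp n hn hodd hBn
  by_cases hq : n < 2 ^ (a + 1)
  · exact Or.inl hq
  have hq1 : 1 ≤ n / 2 ^ (a + 1) := (Nat.one_le_div_iff (by positivity)).2 (not_lt.1 hq)
  right
  obtain ⟨h, e1, e2⟩ := hBn
  obtain ⟨m, hm⟩ := exists_pre har (n / 2 ^ (a + 1) - 1)
  obtain ⟨k1, k2⟩ := pre_left hr hq1 hm
  have hj : Odd (6 * (n / 2 ^ (a + 1) - 1) + r) := by
    rw [Nat.odd_iff]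
    omega
  have k3 : (n : ℝ) ≤ m + Real.exp (G N) := by
    have : (n : ℝ) ≤ m + 2 ^ (a + 2) := by exact_mod_cast k2
    linarith
  obtain ⟨h', e3, e4⟩ := e2 m (odd_pre (by omega) hm) k1 k3
  have hD := W.D0 N
  by_cases hj1 : 6 * (n / 2 ^ (a + 1) - 1) + r = 1
  · refine ⟨h, 1, e1, by rw [hj1]; exact height_one, ?_⟩
    have k4 : height m = (1 : ℕ) := by
      apply height_eq
      refine ⟨le_rfl, ?_, fun k hk hlt => by omega⟩
      exact (C_pre hj hm).trans hj1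
    rw [e3] at k4
    have k5 : h' = 1 := by exact_mod_cast k4
    rw [k5] at e4
    linarith
  have k4 := height_pre hj hj1 hm
  rw [e3] at k4
  have k5 : height (6 * (n / 2 ^ (a + 1) - 1) + r) ≠ ⊤ := by
    intro hcon
    rw [hcon, top_add] at k4
    exact ENat.natCast_ne_top h' k4
  obtain ⟨l, hl⟩ := ENat.ne_top_iff_exists.1 k5
  rw [← hl] at k4
  have k6 : h' = l + 1 := by exact_mod_cast k4
  refine ⟨h, l, e1, hl.symm, ?_⟩
  rw [k6] at e4
  push_cast at e4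
  linarith

end Pool.Agent.L0h63.CR
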