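import Pool.Agent.L0h63.CR.RL5
import Pool.Agent.Results.MP_2b866c_nt.HeightNeighbours

/-! The length of the runs of equal heights. -/

set_option autoImplicit false

namespace Pool.Agent.L0h63.CR

open Filter Topology
open Pool.Agent.Results.MP_2b866c_nt.HeightLaw (height HasOddDensity Phi)

theorem s₀_eq {t : ℝ} (ht : 0 ≤ t) : s₀ t = s₀ 1 * √t := by
  unfold s₀
  rw [mul_assoc, ← Real.sqrt_mul' _ ht]
  congr 2
  ring

theorem s₀_one_pos : 0 < s₀ 1 := by
  unfold s₀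
  have h1 : 0 < Real.log (4 / 3) := Real.log_pos (by norm_num)
  have h2 : 0 < Real.log 2 := Real.log_pos (by norm_num)
  positivity

theorem tendsto_log_nat : Tendsto (fun N : ℕ => Real.log N) atTop atTop :=
  Real.tendsto_log_atTop.comp tendsto_natCast_atTop_atTop

theorem tendsto_sqrt_log : Tendsto (fun N : ℕ => √(Real.log N)) atTop atTop :=
  Real.tendsto_sqrt_atTop.comp tendsto_log_nat

theorem win_of {u x : ℝ} (hx : 0 ≤ x) (hux : 2 * x * s₀ 1 < c₀ * u) :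
    Win (fun N => u * √(Real.log N) - u) (fun _ => 0) x where
  x0 := hx
  D0 := fun _ => le_rfl
  gap := by
    have h1 : Tendsto (fun N : ℕ => (c₀ * u - 2 * x * s₀ 1) * √(Real.log N) - c₀ * u) atTop atTop :=
      tendsto_atTop_add_const_right _ _ (tendsto_sqrt_log.const_mul_atTop (by linarith))
    refine h1.congr' ?_
    filter_upwards [tendsto_log_nat.eventually_ge_atTop 0] with N hN
    rw [s₀_eq hN]
    ring
  small := by
    have h1 : Tendsto (fun N : ℕ => √(Real.log N) * (√(Real.log N) - u) + u) atTop atTop :=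
      tendsto_atTop_add_const_right _ _ (tendsto_sqrt_log.atTop_mul_atTop₀
        (tendsto_atTop_add_const_right _ _ tendsto_sqrt_log))
    refine h1.congr' ?_
    filter_upwards [tendsto_log_nat.eventually_ge_atTop 0] with N hN
    have h2 := Real.mul_self_sqrt hN
    linarith

theorem transfer {R : ℕ → Prop} {B : ℕ → ℕ → Prop} {v : ℝ}
    (hR : ∀ η > (0 : ℝ), ∀ᶠ N : ℕ in atTop, ∀ n ≤ N, Odd n → η * N < n → R n → B N n)
    (hB : ∀ ε > (0 : ℝ), ∀ᶠ N : ℕ in atTop, 2 / (N : ℝ) * (oc (B N) N : ℝ) ≤ v + ε) :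
    ∀ ε > (0 : ℝ), ∀ᶠ N : ℕ in atTop, 2 / (N : ℝ) * (oc R N : ℝ) ≤ v + ε := by
  intro ε hε
  have hN2 : Tendsto (fun N : ℕ => 2 / (N : ℝ)) atTop (𝓝 0) := tendsto_const_div_atTop_nhds_zero_nat 2
  filter_upwards [hR (ε / 8) (by linarith), hB (ε / 4) (by linarith), eventually_ge_atTop 1,
    hN2.eventually_lt_const (show (0 : ℝ) < ε / 4 by linarith)] with N h1 h2 h3 h4
  have h3r : (0 : ℝ) < N := by exact_mod_cast h3
  have h5 : oc R N ≤ oc (fun n => n ≤ ⌊ε / 8 * N⌋₊) N + oc (B N) N := by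
    refine le_trans (oc_mono ?_) (oc_or _ _ N)
    intro n hn hodd hRn
    by_cases h6 : n ≤ ⌊ε / 8 * N⌋₊
    · exact Or.inl h6
    · exact Or.inr (h1 n hn hodd ((Nat.floor_lt (by positivity)).1 (not_le.1 h6)) hRn)
  have h6 : oc (fun n => n ≤ ⌊ε / 8 * N⌋₊) N ≤ ⌊ε / 8 * N⌋₊ + 1 := oc_le_of fun m _ _ h => h
  have h7 := Nat.floor_le (show 0 ≤ ε / 8 * N by positivity)
  have h8 : (oc R N : ℝ) ≤ oc (fun n => n ≤ ⌊ε / 8 * N⌋₊) N + oc (B N) N := by exact_mod_cast h5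
  have h9 : (oc (fun n => n ≤ ⌊ε / 8 * N⌋₊) N : ℝ) ≤ ⌊ε / 8 * N⌋₊ + 1 := by exact_mod_cast h6
  have h10 : 2 / (N : ℝ) * (oc R N : ℝ) ≤ 2 / (N : ℝ) * (ε / 8 * N + 1 + oc (B N) N) :=
    mul_le_mul_of_nonneg_left (by linarith) (by positivity)
  have h11 : 2 / (N : ℝ) * (ε / 8 * N + 1 + oc (B N) N) = ε / 4 + 2 / (N : ℝ) + 2 / (N : ℝ) * oc (B N) N := by
    field_simp
    ring
  linarith

theorem sqrt_near {η : ℝ} (hη : 0 < η) :
    ∀ᶠ N : ℕ in atTop, ∀ n : ℕ, η * N < n → √(Real.log N) - 1 ≤ √(Real.log n) := by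
  filter_upwards [eventually_ge_atTop 1, tendsto_log_nat.eventually_ge_atTop 0,
    tendsto_sqrt_log.eventually_ge_atTop ((1 - Real.log η) / 2)] with N h1 h2 h3 n hn
  have h1r : (0 : ℝ) < N := by exact_mod_cast h1
  have h4 : Real.log η + Real.log N ≤ Real.log n := by
    rw [← Real.log_mul hη.ne' h1r.ne']
    exact Real.log_le_log (by positivity) hn.le
  have h5 := Real.mul_self_sqrt h2
  refine (le_abs_self _).trans (Real.abs_le_sqrt ?_)
  nlinarith

theorem eventually_of_large {p : ℕ → Prop} (hp : ∀ᶠ n in atTop, p n) {η : ℝ} (hη : 0 < η) :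
    ∀ᶠ N : ℕ in atTop, ∀ n : ℕ, η * N < n → p n := by
  obtain ⟨n₀, hn₀⟩ := eventually_atTop.1 hp
  have h1 : Tendsto (fun N : ℕ => η * (N : ℝ)) atTop atTop := tendsto_natCast_atTop_atTop.const_mul_atTop hη
  filter_upwards [h1.eventually_ge_atTop (n₀ : ℝ)] with N hN n hn
  exact hn₀ n (by exact_mod_cast hN.trans hn.le)

/-- the height is finite and constant on the window to the right -/
def RR (g : ℕ → ℝ) (n : ℕ) : Prop := height n ≠ ⊤ ∧ ∀ m : ℕ, Odd m → n ≤ m → (m : ℝ) ≤ n + Real.exp (g n) →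
  height m = height n

/-- the height is finite and constant on the window to the left -/
def RL (g : ℕ → ℝ) (n : ℕ) : Prop := height n ≠ ⊤ ∧ ∀ m : ℕ, Odd m → m ≤ n → (n : ℝ) ≤ m + Real.exp (g n) →
  height m = height n

section

variable {δ : ℝ} (hF : HasOddDensity (fun m => height m ≠ ⊤) δ) (hL : ∀ x, HasOddDensity (L x) (δ * Phi x))
include hF hL

theorem run_right {g : ℕ → ℝ} {u x : ℝ} (hu : 0 ≤ u) (hg : ∀ᶠ n : ℕ in atTop, u * √(Real.log n) ≤ g n) (hx : 0 ≤ x)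
    (hux : 2 * x * s₀ 1 < c₀ * u) :
    ∀ ε > (0 : ℝ), ∀ᶠ N : ℕ in atTop, 2 / (N : ℝ) * (oc (RR g) N : ℝ) ≤ 2 * δ * Phi (-x) + ε := by
  refine transfer (B := BR (fun N => u * √(Real.log N) - u) (fun _ => 0)) (fun η hη => ?_)
    (fun ε hε => main_right (win_of hx hux) hF hL hε)
  filter_upwards [sqrt_near hη, eventually_of_large hg hη] with N h1 h2 n hn hodd hηn hR
  obtain ⟨h, hh⟩ := ENat.ne_top_iff_exists.1 hR.1
  refine ⟨h, hh.symm, fun m hm hnm hmn => ⟨h, ?_, by simp⟩⟩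
  rw [hh]
  refine hR.2 m hm hnm (hmn.trans ?_)
  have h3 := h1 n hηn
  have h4 := h2 n hηn
  have h5 : Real.exp (u * √(Real.log N) - u) ≤ Real.exp (g n) := by
    rw [Real.exp_le_exp]
    have := mul_le_mul_of_nonneg_left h3 hu
    linarith
  linarith

theorem run_left {g : ℕ → ℝ} {u x : ℝ} (hu : 0 ≤ u) (hg : ∀ᶠ n : ℕ in atTop, u * √(Real.log n) ≤ g n) (hx : 0 ≤ x)
    (hux : 2 * x * s₀ 1 < c₀ * u) :
    ∀ ε > (0 : ℝ), ∀ᶠ N : ℕ in atTop, 2 / (N : ℝ) * (oc (RL g) N : ℝ) ≤ 2 * δ * Phi (-x) + ε := by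
  refine transfer (B := BL (fun N => u * √(Real.log N) - u) (fun _ => 0)) (fun η hη => ?_)
    (fun ε hε => main_left (win_of hx hux) hF hL hε)
  filter_upwards [sqrt_near hη, eventually_of_large hg hη] with N h1 h2 n hn hodd hηn hR
  obtain ⟨h, hh⟩ := ENat.ne_top_iff_exists.1 hR.1
  refine ⟨h, hh.symm, fun m hm hnm hmn => ⟨h, ?_, by simp⟩⟩
  rw [hh]
  refine hR.2 m hm hnm (hmn.trans ?_)
  have h3 := h1 n hηn
  have h4 := h2 n hηn
  have h5 : Real.exp (u * √(Real.log N) - u) ≤ Real.exp (g n) := by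
    rw [Real.exp_le_exp]
    have := mul_le_mul_of_nonneg_left h3 hu
    linarith
  linarith

end

/-- `c₀ / (2 s₀ 1)` -/
noncomputable def lam : ℝ := √(Real.log (4 / 3) / 8) / Real.log 2

theorem lam_eq : 2 * lam * s₀ 1 = c₀ := by
  have h1 : 0 < Real.log (4 / 3) := Real.log_pos (by norm_num)
  have h2 : 0 < Real.log 2 := Real.log_pos (by norm_num)
  have h3 : Real.log (16 / 9) = 2 * Real.log (4 / 3) := by
    rw [show (16 : ℝ) / 9 = (4 / 3) ^ 2 by norm_num, Real.log_pow]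
    push_cast
    ring
  unfold lam s₀ c₀
  rw [h3]
  have h4 : √(Real.log (4 / 3) / 8) * √(2 * 1 / Real.log (4 / 3) ^ 3) = 1 / (2 * Real.log (4 / 3)) := by
    rw [← Real.sqrt_mul (by positivity)]
    have h5 : Real.log (4 / 3) / 8 * (2 * 1 / Real.log (4 / 3) ^ 3) = (1 / (2 * Real.log (4 / 3))) ^ 2 := by
      field_simp
      ring
    rw [h5, Real.sqrt_sq (by positivity)]
  calc 2 * (√(Real.log (4 / 3) / 8) / Real.log 2) * (Real.log 2 * √(2 * 1 / Real.log (4 / 3) ^ 3))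
      = 2 * (√(Real.log (4 / 3) / 8) * √(2 * 1 / Real.log (4 / 3) ^ 3)) := by
        field_simp
    _ = 2 / (2 * Real.log (4 / 3)) := by
        rw [h4]
        ring

theorem lam_pos : 0 < lam := by
  have h1 : 0 < Real.log (4 / 3) := Real.log_pos (by norm_num)
  have h2 : 0 < Real.log 2 := Real.log_pos (by norm_num)
  unfold lam
  positivity

theorem Phi_cont : Continuous Phi := by
  have h : Phi = Pool.Agent.H499R2.ND.Phi := by
    funext x
    exact (Pool.Agent.H499R2.ND.phi_cdf x).symm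
  rw [h]
  exact Pool.Agent.H499R2.ND.Phi_continuous

/-- limits at the boundary -/
theorem boundary {δ u : ℝ} (hu : 0 < u) {R : ℕ → Prop}
    (h : ∀ x, 0 ≤ x → 2 * x * s₀ 1 < c₀ * u → ∀ ε > (0 : ℝ), ∀ᶠ N : ℕ in atTop,
      2 / (N : ℝ) * (oc R N : ℝ) ≤ 2 * δ * Phi (-x) + ε) :
    ∀ ε > (0 : ℝ), ∀ᶠ N : ℕ in atTop, 2 / (N : ℝ) * (oc R N : ℝ) ≤ 2 * δ * Phi (-(u * lam)) + ε := by
  intro ε hε
  have h1 : Tendsto (fun x : ℝ => 2 * δ * Phi (-x)) (𝓝[<] (u * lam)) (𝓝 (2 * δ * Phi (-(u * lam)))) := by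
    have : Continuous fun x : ℝ => 2 * δ * Phi (-x) := continuous_const.mul (Phi_cont.comp continuous_neg)
    exact this.continuousAt.tendsto.mono_left nhdsWithin_le_nhds
  have h2 : ∀ᶠ x in 𝓝[<] (u * lam), 2 * δ * Phi (-x) < 2 * δ * Phi (-(u * lam)) + ε / 2 :=
    h1.eventually_lt_const (by linarith)
  have h3 : ∀ᶠ x in 𝓝[<] (u * lam), 0 < x := by
    have : ∀ᶠ x in 𝓝 (u * lam), 0 < x := lt_mem_nhds (mul_pos hu lam_pos)
    exact this.filter_mono nhdsWithin_le_nhds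
  obtain ⟨x, hx1, hx2, hx3⟩ := (h2.and (h3.and self_mem_nhdsWithin)).exists
  have hx3' : x < u * lam := hx3
  have h4 : 2 * x * s₀ 1 < c₀ * u := by
    rw [← lam_eq]
    have := mul_lt_mul_of_pos_right hx3' s₀_one_pos
    linarith
  filter_upwards [h x hx2.le h4 (ε / 2) (by linarith)] with N hN
  linarith

/-- functions `g` which grow faster than `√ (log n)` -/
theorem tendsto_zero_of {δ : ℝ} {R : ℕ → Prop}
    (h : ∀ x, 0 ≤ x → ∀ ε > (0 : ℝ), ∀ᶠ N : ℕ in atTop, 2 / (N : ℝ) * (oc R N : ℝ) ≤ 2 * δ * Phi (-x) + ε) :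
    Tendsto (fun N : ℕ => 2 / (N : ℝ) * (oc R N : ℝ)) atTop (𝓝 0) := by
  have h1 : Tendsto (fun x : ℝ => 2 * δ * Phi (-x)) atTop (𝓝 0) := by
    have h2 : Tendsto Phi atTop (𝓝 1) := ProbabilityTheory.tendsto_cdf_atTop _
    have h3 := (h2.const_sub 1).const_mul (2 * δ)
    rw [sub_self, mul_zero] at h3
    refine h3.congr fun x => ?_
    rw [Phi_neg]
  rw [Metric.tendsto_atTop]
  intro ε hε
  obtain ⟨x, hx1, hx2⟩ := ((h1.eventually_lt_const (show (0 : ℝ) < ε / 2 by linarith)).and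
    (eventually_ge_atTop (0 : ℝ))).exists
  obtain ⟨N₀, hN₀⟩ := eventually_atTop.1 (h x hx2 (ε / 4) (by linarith))
  refine ⟨N₀, fun N hN => ?_⟩
  have h4 := hN₀ N hN
  have h5 : 0 ≤ 2 / (N : ℝ) * (oc R N : ℝ) := by positivity
  rw [Real.dist_eq, sub_zero, abs_of_nonneg h5]
  linarith

theorem fast {g : ℕ → ℝ} (hg : Tendsto (fun n : ℕ => g n / √(Real.log n)) atTop atTop) (u : ℝ) :
    ∀ᶠ n : ℕ in atTop, u * √(Real.log n) ≤ g n := by
  filter_upwards [hg.eventually_ge_atTop u, tendsto_sqrt_log.eventually_gt_atTop 0] with n h1 h2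
  rwa [le_div_iff₀ h2] at h1

section

variable {δ : ℝ} (hF : HasOddDensity (fun m => height m ≠ ⊤) δ) (hL : ∀ x, HasOddDensity (L x) (δ * Phi x))
include hF hL

theorem run_right_zero {g : ℕ → ℝ} (hg : Tendsto (fun n : ℕ => g n / √(Real.log n)) atTop atTop) :
    Tendsto (fun N : ℕ => 2 / (N : ℝ) * (oc (RR g) N : ℝ)) atTop (𝓝 0) := by
  refine tendsto_zero_of (δ := δ) fun x hx => ?_
  have hc := c₀_pos
  have hs := s₀_one_pos
  refine run_right hF hL (u := (2 * x * s₀ 1 + 1) / c₀) (by positivity) (fast hg _) hx ?_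
  rw [mul_div_cancel₀ _ hc.ne']
  linarith

theorem run_left_zero {g : ℕ → ℝ} (hg : Tendsto (fun n : ℕ => g n / √(Real.log n)) atTop atTop) :
    Tendsto (fun N : ℕ => 2 / (N : ℝ) * (oc (RL g) N : ℝ)) atTop (𝓝 0) := by
  refine tendsto_zero_of (δ := δ) fun x hx => ?_
  have hc := c₀_pos
  have hs := s₀_one_pos
  refine run_left hF hL (u := (2 * x * s₀ 1 + 1) / c₀) (by positivity) (fast hg _) hx ?_
  rw [mul_div_cancel₀ _ hc.ne']
  linarith

end

/-- the scale of the windows on which the height is constant -/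
noncomputable def κ (n : ℕ) : ℝ := √ (Real.log n) / (Real.log (Real.log n)) ^ 16

/-- the height is constant on the small window -/
def Near (n : ℕ) : Prop := ∀ m : ℕ, Odd m → |(m : ℝ) - n| ≤ Real.exp (κ n) → height m = height n

theorem near_dens : HasOddDensity (fun n => ¬ Near n) 0 := by
  have h : HasOddDensity (fun n => ∀ m a b a' b' : ℕ, Odd m →
    Pool.Agent.Results.MP_2b866c_nt.HeightNeighbours.Linked n m a b a' b' → height m + b' = height n + b) 1 :=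
    Pool.Agent.Results.MP_2b866c_nt.HeightNeighbours.result
  have h2 := compl_dens h
  rw [sub_self] at h2
  apply of_dens_oc
  refine squeeze_zero (fun N => by positivity) (fun N => ?_) (dens_oc h2)
  refine mul_le_mul_of_nonneg_left ?_ (by positivity)
  have : oc (fun n => ¬ Near n) N ≤ oc (fun n => ¬ ∀ m a b a' b' : ℕ, Odd m →
      Pool.Agent.Results.MP_2b866c_nt.HeightNeighbours.Linked n m a b a' b' → height m + b' = height n + b) N := by
    refine oc_mono fun n _ _ hn hcon => hn fun m hm hmn => ?_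
    have hk : 0 ≤ κ n := div_nonneg (Real.sqrt_nonneg _) (Even.pow_nonneg (by decide) _)
    have h4 : |((2 ^ 0 * 3 ^ 0 * (m : ℤ) - 2 ^ 0 * 3 ^ 0 * (n : ℤ) : ℤ) : ℝ)| ≤ Real.exp (κ n) := by
      simpa using hmn
    have hk0 : ((0 : ℕ) : ℝ) ≤ κ n := by rwa [Nat.cast_zero]
    have h3 := hcon m 0 0 0 0 hm ⟨hk0, hk0, hk0, hk0, h4⟩
    simpa using h3
  exact_mod_cast this

/-- THE LENGTH OF THE RUNS -/
theorem runs {δ : ℝ} (hF : HasOddDensity (fun m => height m ≠ ⊤) δ) (hL : ∀ x, HasOddDensity (L x) (δ * Phi x))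
    {g : ℕ → ℝ} (hg : Tendsto (fun n : ℕ => g n / √(Real.log n)) atTop atTop) :
    HasOddDensity (fun n => height n ≠ ⊤ ∧ Near n ∧ ¬ RR g n ∧ ¬ RL g n) δ := by
  apply of_dens_oc
  set S : ℕ → Prop := fun n => height n ≠ ⊤ ∧ Near n ∧ ¬ RR g n ∧ ¬ RL g n with hS
  have h1 : ∀ N, oc (fun m => height m ≠ ⊤) N ≤ oc S N + (oc (fun n => ¬ Near n) N + (oc (RR g) N + oc (RL g) N)) := by
    intro N
    refine le_trans (oc_mono (Q := fun n => S n ∨ (¬ Near n ∨ (RR g n ∨ RL g n))) ?_)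
      ((oc_or _ _ N).trans (Nat.add_le_add_left ((oc_or _ _ N).trans (Nat.add_le_add_left (oc_or _ _ N) _)) _))
    intro n _ _ hn
    by_cases h2 : Near n
    · by_cases h3 : RR g n
      · exact Or.inr (Or.inr (Or.inl h3))
      · by_cases h4 : RL g n
        · exact Or.inr (Or.inr (Or.inr h4))
        · exact Or.inl ⟨hn, h2, h3, h4⟩
    · exact Or.inr (Or.inl h2)
  have h2 := (dens_oc hF).sub ((dens_oc near_dens).add ((run_right_zero hF hL hg).add (run_left_zero hF hL hg)))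
  rw [add_zero, add_zero, sub_zero] at h2
  refine tendsto_of_tendsto_of_tendsto_of_le_of_le h2 (dens_oc hF) (fun N => ?_) (fun N => ?_)
  · have h3 : (oc (fun m => height m ≠ ⊤) N : ℝ) ≤
        oc S N + (oc (fun n => ¬ Near n) N + (oc (RR g) N + oc (RL g) N)) := by exact_mod_cast h1 N
    have h4 := mul_le_mul_of_nonneg_left h3 (show 0 ≤ 2 / (N : ℝ) by positivity)
    dsimp only
    linarith
  · refine mul_le_mul_of_nonneg_left ?_ (by positivity)
    exact Nat.cast_le.2 (oc_mono (P := S) (Q := fun m => height m ≠ ⊤) (N := N) fun m _ _ h => h.1)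

end Pool.Agent.L0h63.CR
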